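import Mathlib

/-!
Piecewise syndetic sets in a commutative monoid and the IP van der Waerden theorem for them.
-/

set_option autoImplicit false

namespace Pool.Agent.W281.ExpIP

open Hindman

variable {M : Type} [CommMonoid M]

/-- Thick sets: sets containing a translate of every finite set. -/
def Thick (A : Set M) : Prop := ∀ Z : Finset M, ∃ z : M, ∀ x ∈ Z, z * x ∈ A

/-- Piecewise syndetic sets. -/
def PS (A : Set M) : Prop := ∃ T : Finset M, Thick {x : M | ∃ t ∈ T, t * x ∈ A}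

theorem Thick.mono {A B : Set M} (h : A ⊆ B) (hA : Thick A) : Thick B := by
  intro Z
  obtain ⟨z, hz⟩ := hA Z
  exact ⟨z, fun x hx => h (hz x hx)⟩

theorem PS.mono {A B : Set M} (h : A ⊆ B) (hA : PS A) : PS B := by
  obtain ⟨T, hT⟩ := hA
  refine ⟨T, hT.mono ?_⟩
  rintro x ⟨t, ht, hx⟩
  exact ⟨t, ht, h hx⟩

theorem Thick.ps {A : Set M} (hA : Thick A) : PS A := by
  refine ⟨{1}, hA.mono ?_⟩
  intro x hx
  exact ⟨1, by simp, by simpa using hx⟩

theorem PS.nonempty {A : Set M} (hA : PS A) : A.Nonempty := by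
  obtain ⟨T, hT⟩ := hA
  obtain ⟨z, hz⟩ := hT {1}
  obtain ⟨t, _, h⟩ := hz 1 (by simp)
  exact ⟨_, h⟩

open Classical in
theorem PS.union {A B : Set M} (h : PS (A ∪ B)) : PS A ∨ PS B := by
  obtain ⟨T, hT⟩ := h
  by_cases hB : Thick {x : M | ∃ t ∈ T, t * x ∈ B}
  · exact Or.inr ⟨T, hB⟩
  · left
    unfold Thick at hB
    push Not at hB
    obtain ⟨Z, hZ⟩ := hB
    refine ⟨(T ×ˢ Z).image (fun p => p.1 * p.2), ?_⟩
    intro W
    obtain ⟨z, hz⟩ := hT ((W ×ˢ Z).image (fun p => p.1 * p.2))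
    refine ⟨z, fun w hw => ?_⟩
    obtain ⟨x, hx, hxB⟩ := hZ (z * w)
    obtain ⟨t, ht, htA⟩ := hz (w * x)
      (Finset.mem_image.2 ⟨(w, x), Finset.mem_product.2 ⟨hw, hx⟩, rfl⟩)
    refine ⟨t * x, Finset.mem_image.2 ⟨(t, x), Finset.mem_product.2 ⟨ht, hx⟩, rfl⟩, ?_⟩
    have e1 : t * (z * (w * x)) = t * x * (z * w) := by
      rw [← mul_assoc z w x, mul_comm (z * w) x, ← mul_assoc]
    have e2 : t * (z * (w * x)) = t * (z * w * x) := by rw [mul_assoc z w x]
    rcases htA with h1 | h1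
    · rw [e1] at h1
      exact h1
    · exfalso
      apply hxB
      rw [e2] at h1
      exact ⟨t, ht, h1⟩

theorem PS.biUnion {ι : Type} (s : Finset ι) (A : ι → Set M) (h : PS (⋃ i ∈ s, A i)) :
    ∃ i ∈ s, PS (A i) := by
  classical
  induction s using Finset.induction_on with
  | empty =>
    exfalso
    obtain ⟨x, hx⟩ := h.nonempty
    simp at hx
  | insert a s ha ih =>
    rw [Finset.set_biUnion_insert] at h
    rcases h.union with h | h
    · exact ⟨a, by simp, h⟩
    · obtain ⟨i, hi, hA⟩ := ih h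
      exact ⟨i, by simp [hi], hA⟩

theorem PS.iUnion {ι : Type} [Finite ι] (A : ι → Set M) (h : PS (⋃ i, A i)) :
    ∃ i, PS (A i) := by
  have := Fintype.ofFinite ι
  obtain ⟨i, _, hi⟩ := PS.biUnion Finset.univ A (by simpa using h)
  exact ⟨i, hi⟩

open Classical in
theorem PS.translate {W B : Set M} (s : M) (h : ∀ w ∈ W, s * w ∈ B) (hW : PS W) : PS B := by
  obtain ⟨T, hT⟩ := hW
  refine ⟨T.image (fun t => s * t), hT.mono ?_⟩
  rintro x ⟨t, ht, hx⟩
  refine ⟨s * t, Finset.mem_image.2 ⟨t, ht, rfl⟩, ?_⟩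
  rw [mul_assoc]
  exact h _ hx

attribute [local instance] Ultrafilter.mul Ultrafilter.semigroup

/-- IP van der Waerden for piecewise syndetic sets in a commutative monoid. -/
theorem ip_vdw (U : Ultrafilter M) (hU : U * U = U) (G : Set M) (hG : G ∈ U) (A : Set M)
    (hA : PS A) (F : Finset ℕ) :
    ∃ b ∈ G, PS {e : M | e ∈ A ∧ ∀ E ∈ F, b ^ E * e ∈ A} := by
  classical
  obtain ⟨T, hT⟩ := hA
  obtain ⟨a, ha⟩ := exists_FP_of_large U hU G hG
  let α := {n : ℕ // n ∈ insert 0 F}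
  let κ := {t : M // t ∈ T}
  have hα : Finite α := Finite.of_fintype {n : ℕ // n ∈ insert 0 F}
  have hκ : Finite κ := Finite.of_fintype {t : M // t ∈ T}
  obtain ⟨ι, hι, hHJ⟩ := Combinatorics.Line.exists_mono_in_high_dimension α κ
  have hfun : Fintype (ι → α) := Fintype.ofFinite (ι → α)
  let g : ι → M := fun i => a.get (Fintype.equivFin ι i)
  let P : (ι → α) → M := fun v => ∏ i, g i ^ (v i : ℕ)
  let q : (ι → Option α) → M := fun φ => ∏ i, (φ i).elim 1 (fun y => g i ^ (y : ℕ))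
  let b : (ι → Option α) → M := fun φ => ∏ i, (φ i).elim (g i) (fun _ => 1)
  -- the point of the line
  have hP : ∀ (l : Combinatorics.Line α ι) (x : α), P (l x) = q l.idxFun * b l.idxFun ^ (x : ℕ) := by
    intro l x
    change ∏ i, g i ^ ((l x i : α) : ℕ) = (∏ i, _) * (∏ i, _) ^ (x : ℕ)
    rw [← Finset.prod_pow, ← Finset.prod_mul_distrib]
    refine Finset.prod_congr rfl (fun i _ => ?_)
    rw [Combinatorics.Line.coe_apply]
    cases h : l.idxFun i with
    | none => simp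
    | some y => simp
  let Θ : Set M := {x : M | ∃ t ∈ T, t * x ∈ A}
  let Θ' : Set M := {z : M | ∀ v : ι → α, z * P v ∈ Θ}
  have hΘ' : Thick Θ' := by
    intro W
    obtain ⟨z, hz⟩ := hT ((W ×ˢ (Finset.univ : Finset (ι → α))).image (fun p => p.1 * P p.2))
    refine ⟨z, fun w hw v => ?_⟩
    have := hz (w * P v) (Finset.mem_image.2 ⟨(w, v), Finset.mem_product.2 ⟨hw, Finset.mem_univ _⟩, rfl⟩)
    rw [mul_assoc]
    exact this
  let W : κ × (ι → Option α) → Set M := fun p =>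
    {z : M | (∃ i, p.2 i = none) ∧ ∀ x : α, (p.1 : M) * (z * (q p.2 * b p.2 ^ (x : ℕ))) ∈ A}
  have hcov : Θ' ⊆ ⋃ p, W p := by
    intro z hz
    choose C hC hCA using hz
    obtain ⟨l, t, hl⟩ := hHJ (fun v => ⟨C v, hC v⟩)
    refine Set.mem_iUnion.2 ⟨(t, l.idxFun), l.proper, fun x => ?_⟩
    have h1 := hCA (l x)
    have h2 : C (l x) = (t : M) := congrArg Subtype.val (hl x)
    rw [h2, hP] at h1
    exact h1
  obtain ⟨⟨t, φ⟩, hp⟩ := PS.iUnion W (hΘ'.ps.mono hcov)
  have hne : ∃ i, φ i = none := by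
    obtain ⟨z, hz⟩ := hp.nonempty
    exact hz.1
  refine ⟨b φ, ?_, ?_⟩
  · apply ha
    have h1 : b φ = ∏ i ∈ (Finset.univ.filter (fun i => φ i = none)).image
        (fun i => ((Fintype.equivFin ι i : Fin _) : ℕ)), a.get i := by
      rw [Finset.prod_image]
      · rw [Finset.prod_filter]
        refine Finset.prod_congr rfl (fun i _ => ?_)
        cases h : φ i with
        | none => simp [g]
        | some y => simp
      · intro i _ j _ hij
        exact (Fintype.equivFin ι).injective (Fin.ext hij)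
    rw [h1]
    apply FP.finsetProd
    obtain ⟨i, hi⟩ := hne
    exact ⟨_, Finset.mem_image.2 ⟨i, by simp [hi], rfl⟩⟩
  · refine PS.translate ((t : M) * q φ) ?_ hp
    rintro z ⟨_, hz⟩
    constructor
    · have h0 := hz ⟨0, by simp⟩
      simp only [pow_zero, mul_one] at h0
      rw [mul_assoc, mul_comm (q φ) z]
      exact h0
    · intro E hE
      have h0 := hz ⟨E, by simp [hE]⟩
      have e1 : b φ ^ E * ((t : M) * q φ * z) = (t : M) * (z * (q φ * b φ ^ E)) := by
        simp only [mul_comm, mul_left_comm]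
      rw [e1]
      exact h0

end Pool.Agent.W281.ExpIP
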