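import Mathlib

/-!
A two-colouring of `ℕ` without monochromatic exponential IP set of type I.
-/

set_option autoImplicit false

namespace Pool.Agent.W281.ExpIP.TwoCol

open Filter Topology

/-- The sets `FE^I_n(X)` for `X = {x 0 < x 1 < ...}`. -/
def FE1 (x : ℕ → ℕ) : ℕ → Set ℕ
  | 0 => {x 0}
  | n + 1 => {z | ∃ y ∈ FE1 x n, z = y ^ x (n + 1)} ∪ FE1 x n ∪ {x (n + 1)}

/-- The colouring of the exponents of exponents. -/
def C (M : ℕ) : Bool :=
  if _h : 2 ≤ M then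
    xor (!(C (Nat.log 2 M)))
      (decide (C (Nat.log 2 M) ≠ C (Nat.log 2 M - 1) ∧ M ≤ 2 ^ Nat.log 2 M + Nat.log 2 M ∧
        M % 3 ≠ Nat.log 2 M % 3))
  else false
  termination_by M
  decreasing_by
    all_goals
      have := Nat.log_lt_self 2 (x := M) (by omega)
      omega

/-- `⌊log₂ log₂ n⌋`. -/
def LL (n : ℕ) : ℕ := Nat.log 2 (Nat.log 2 n)

/-- The two-colouring. -/
def col (n : ℕ) : Bool := C (LL n)

theorem C_eq {M m : ℕ} (hM : 2 ≤ M) (hm : Nat.log 2 M = m) :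
    C M = xor (!(C m)) (decide (C m ≠ C (m - 1) ∧ M ≤ 2 ^ m + m ∧ M % 3 ≠ m % 3)) := by
  subst hm
  rw [C, dif_pos hM]

theorem P1 {M m : ℕ} (hM : 2 ≤ M) (hm : Nat.log 2 M = m) (h : C M = C m) :
    M ≤ 2 ^ m + m ∧ M % 3 ≠ m % 3 := by
  rw [C_eq hM hm] at h
  by_contra hcon
  have : decide (C m ≠ C (m - 1) ∧ M ≤ 2 ^ m + m ∧ M % 3 ≠ m % 3) = false := by
    rw [decide_eq_false_iff_not]
    exact fun h => hcon h.2
  rw [this] at h
  cases hC : C m <;> simp [hC] at h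

theorem P2 {M m : ℕ} (hM : 2 ≤ M) (hm : Nat.log 2 M = m + 1) (h : C M = C m)
    (hle : M ≤ 2 ^ (m + 1) + (m + 1)) : M % 3 = (m + 1) % 3 := by
  rw [C_eq hM hm, Nat.add_sub_cancel] at h
  by_contra hcon
  have : decide (C (m + 1) ≠ C m ∧ M ≤ 2 ^ (m + 1) + (m + 1) ∧ M % 3 ≠ (m + 1) % 3) =
      decide (C (m + 1) ≠ C m) := by
    apply decide_eq_decide.2
    exact ⟨fun h => h.1, fun h => ⟨h, hle, hcon⟩⟩
  rw [this] at h
  cases hC : C m <;> cases hC' : C (m + 1) <;> simp [hC, hC'] at h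

theorem FE1_mono (x : ℕ → ℕ) {a n : ℕ} (h : a ≤ n) : FE1 x a ⊆ FE1 x n := by
  induction n, h using Nat.le_induction with
  | base => exact subset_rfl
  | succ n _ ih => exact fun z hz => Or.inl (Or.inr (ih hz))

theorem self_mem (x : ℕ → ℕ) (n : ℕ) : x n ∈ FE1 x n := by
  cases n with
  | zero => exact Set.mem_singleton _
  | succ n => exact Or.inr rfl

theorem mem_FE1 (x : ℕ → ℕ) (i : ℕ) (s : Finset ℕ) (hs : ∀ a ∈ s, i < a) :
    ∀ n, i ≤ n → (∀ a ∈ s, a ≤ n) → x i ^ (∏ a ∈ s, x a) ∈ FE1 x n := by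
  classical
  induction s using Finset.induction_on_max with
  | empty =>
    intro n hn _
    rw [Finset.prod_empty, pow_one]
    exact FE1_mono x hn (self_mem x i)
  | insert b s hb ih =>
    intro n _ hn
    have hbn : b ≤ n := hn b (Finset.mem_insert_self _ _)
    have hib : i < b := hs b (Finset.mem_insert_self _ _)
    obtain ⟨b', rfl⟩ : ∃ b', b = b' + 1 := ⟨b - 1, by omega⟩
    have h1 := ih (fun a ha => hs a (Finset.mem_insert_of_mem ha)) b' (by omega)
      (fun a ha => by have := hb a ha; omega)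
    apply FE1_mono x hbn
    left; left
    refine ⟨_, h1, ?_⟩
    rw [Finset.prod_insert (fun h => lt_irrefl _ (hb _ h)), ← pow_mul, mul_comm]

theorem LL_spec {n : ℕ} (hn : 2 ≤ n) :
    (LL n : ℝ) ≤ Real.logb 2 (Real.logb 2 n) ∧ Real.logb 2 (Real.logb 2 n) < LL n + 1 := by
  have hn0 : n ≠ 0 := by omega
  have hnpos : (0 : ℝ) < n := by positivity
  have ha1 : (2 : ℕ) ^ Nat.log 2 n ≤ n := Nat.pow_log_le_self 2 hn0
  have ha2 : n < (2 : ℕ) ^ (Nat.log 2 n + 1) := Nat.lt_pow_succ_log_self (by norm_num) n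
  set a := Nat.log 2 n with ha
  have hL1 : (a : ℝ) ≤ Real.logb 2 n := by
    rw [Real.le_logb_iff_rpow_le (by norm_num) hnpos, Real.rpow_natCast]
    exact_mod_cast ha1
  have hL2 : Real.logb 2 n < (a : ℝ) + 1 := by
    rw [Real.logb_lt_iff_lt_rpow (by norm_num) hnpos]
    have : (2 : ℝ) ^ ((a : ℝ) + 1) = ((2 ^ (a + 1) : ℕ) : ℝ) := by
      rw [← Nat.cast_add_one, Real.rpow_natCast]
      push_cast
      rfl
    rw [this]
    exact_mod_cast ha2
  have ha0 : a ≠ 0 := by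
    rw [ha]
    have := Nat.log_pos (b := 2) (by norm_num) hn
    omega
  have hm1 : (2 : ℕ) ^ Nat.log 2 a ≤ a := Nat.pow_log_le_self 2 ha0
  have hm2 : a < (2 : ℕ) ^ (Nat.log 2 a + 1) := Nat.lt_pow_succ_log_self (by norm_num) a
  have hLLdef : LL n = Nat.log 2 a := rfl
  rw [hLLdef]
  set m := Nat.log 2 a with hm
  have ha0' : (0 : ℝ) < a := by positivity
  have hLpos : 0 < Real.logb 2 n := lt_of_lt_of_le ha0' hL1
  constructor
  · rw [Real.le_logb_iff_rpow_le (by norm_num) hLpos, Real.rpow_natCast]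
    refine le_trans ?_ hL1
    exact_mod_cast hm1
  · rw [Real.logb_lt_iff_lt_rpow (by norm_num) hLpos]
    have : (2 : ℝ) ^ ((m : ℝ) + 1) = ((2 ^ (m + 1) : ℕ) : ℝ) := by
      rw [← Nat.cast_add_one, Real.rpow_natCast]
      push_cast
      rfl
    rw [this]
    refine lt_of_lt_of_le hL2 ?_
    have h3 : a + 1 ≤ 2 ^ (m + 1) := hm2
    exact_mod_cast h3

/-- one-sided Dirichlet -/
theorem L1 (θ : ℝ) : ∃ r : ℕ, 1 ≤ r ∧ ∃ p : ℤ, 0 ≤ r * θ - p ∧ r * θ - p < 1 / 3 := by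
  obtain ⟨k, hk, _, hk2⟩ := Real.exists_nat_abs_mul_sub_round_le θ (n := 3) (by norm_num)
  rw [abs_le] at hk2
  norm_num at hk2
  by_cases h : 0 ≤ (k : ℝ) * θ - round ((k : ℝ) * θ)
  · exact ⟨k, hk, round ((k : ℝ) * θ), h, by linarith [hk2.2]⟩
  · push Not at h
    set ε := (round ((k : ℝ) * θ) : ℝ) - k * θ with hε
    have hε0 : 0 < ε := by linarith
    have hε1 : ε ≤ 1 / 4 := by linarith [hk2.1]
    set n := ⌊1 / ε⌋₊ with hn
    have hn1 : (n : ℝ) ≤ 1 / ε := Nat.floor_le (by positivity)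
    have hn2 : 1 / ε < n + 1 := Nat.lt_floor_add_one _
    have h1 : (n : ℝ) * ε ≤ 1 := by
      rw [le_div_iff₀ hε0] at hn1
      exact hn1
    have h2 : 1 < ((n : ℝ) + 1) * ε := by
      rw [div_lt_iff₀ hε0] at hn2
      exact hn2
    have hn0 : n ≠ 0 := by
      intro h0
      rw [h0] at h2
      norm_num at h2
      linarith
    refine ⟨n * k, ?_, (n : ℤ) * round ((k : ℝ) * θ) - 1, ?_, ?_⟩
    · exact Nat.one_le_iff_ne_zero.2 (Nat.mul_ne_zero hn0 (by omega))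
    · push_cast
      have : (n : ℝ) * k * θ - (n * round ((k : ℝ) * θ) - 1) = 1 - n * ε := by rw [hε]; ring
      rw [this]
      linarith
    · push_cast
      have : (n : ℝ) * k * θ - (n * round ((k : ℝ) * θ) - 1) = 1 - n * ε := by rw [hε]; ring
      rw [this]
      linarith

theorem L2 (θ : ℝ) : ∃ r : ℕ, 1 ≤ r ∧ ∃ p : ℤ, 1 / 3 < r * θ - p ∧ r * θ - p ≤ 1 := by
  set a := Int.fract θ with ha
  have ha0 : 0 ≤ a := Int.fract_nonneg θ
  have ha1 : a < 1 := Int.fract_lt_one θ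
  have hθ : θ = ⌊θ⌋ + a := (Int.floor_add_fract θ).symm
  by_cases h0 : a = 0
  · refine ⟨1, le_refl 1, ⌊θ⌋ - 1, ?_, ?_⟩
    · push_cast
      rw [h0] at hθ
      linarith
    · push_cast
      rw [h0] at hθ
      linarith
  · have ha0' : 0 < a := lt_of_le_of_ne ha0 (Ne.symm h0)
    by_cases h3 : 1 / 3 < a
    · refine ⟨1, le_refl 1, ⌊θ⌋, ?_, ?_⟩
      · push_cast
        linarith
      · push_cast
        linarith
    · push Not at h3
      set n := ⌊1 / (3 * a)⌋₊ with hn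
      have hn1 : (n : ℝ) ≤ 1 / (3 * a) := Nat.floor_le (by positivity)
      have hn2 : 1 / (3 * a) < n + 1 := Nat.lt_floor_add_one _
      rw [le_div_iff₀ (by positivity)] at hn1
      rw [div_lt_iff₀ (by positivity)] at hn2
      refine ⟨n + 1, by omega, (n + 1) * ⌊θ⌋, ?_, ?_⟩
      · push_cast
        have : ((n : ℝ) + 1) * θ - (n + 1) * ⌊θ⌋ = (n + 1) * a := by
          have : θ - ⌊θ⌋ = a := by linarith
          rw [← this]
          ring
        rw [this]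
        linarith
      · push_cast
        have : ((n : ℝ) + 1) * θ - (n + 1) * ⌊θ⌋ = (n + 1) * a := by
          have : θ - ⌊θ⌋ = a := by linarith
          rw [← this]
          ring
        rw [this]
        nlinarith

end Pool.Agent.W281.ExpIP.TwoCol
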