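import Mathlib
import Pool.Agent.W281.ExpIP.TwoCol

/-!
The two-colouring `col` has no monochromatic exponential IP set of type I.
-/

set_option autoImplicit false

namespace Pool.Agent.W281.ExpIP.TwoCol

open Filter Topology

/-- a fixed nonprincipal ultrafilter on `ℕ` -/
noncomputable def U : Ultrafilter ℕ := Filter.hyperfilter ℕ

theorem U_le : (U : Filter ℕ) ≤ atTop := Nat.hyperfilter_le_atTop

theorem ev_of {p : ℕ → Prop} (h : ∀ᶠ i in (atTop : Filter ℕ), p i) : ∀ᶠ i in (U : Filter ℕ), p i :=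
  h.filter_mono U_le

theorem ev_gt (N : ℕ) : ∀ᶠ i in (U : Filter ℕ), N < i := ev_of (eventually_gt_atTop N)

theorem select (Q : ℕ → Prop) (hQ : ∀ᶠ a in (U : Filter ℕ), Q a) (i0 r : ℕ) (hr : 1 ≤ r)
    (R : Finset ℕ → ℕ → Prop)
    (hR : ∀ s : Finset ℕ, (∀ a ∈ s, i0 < a) → ∀ᶠ j in (U : Filter ℕ), R (insert j s) j) :
    ∃ (t : Finset ℕ) (j : ℕ), j ∈ t ∧ t.card = r ∧ (∀ a ∈ t, Q a ∧ i0 < a) ∧ R t j := by
  have hinf : {a : ℕ | Q a ∧ i0 < a}.Infinite := by
    rw [← Nat.frequently_atTop_iff_infinite]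
    exact ((hQ.and (ev_gt i0)).frequently).filter_mono U_le
  obtain ⟨s, hs, hcard⟩ := hinf.exists_subset_card_eq (r - 1)
  have hs' : ∀ a ∈ s, Q a ∧ i0 < a := fun a ha => hs (Finset.mem_coe.2 ha)
  obtain ⟨j, ⟨⟨hj1, hj2⟩, hj3⟩, hj4⟩ :=
    (((hQ.and (ev_gt i0)).and (ev_gt (s.sup id))).and (hR s (fun a ha => (hs' a ha).2))).exists
  have hjs : j ∉ s := by
    intro h
    have := Finset.le_sup (f := id) h
    simp only [id] at this
    omega
  refine ⟨insert j s, j, Finset.mem_insert_self _ _, ?_, ?_, hj4⟩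
  · rw [Finset.card_insert_of_notMem hjs, hcard]
    omega
  · intro a ha
    rcases Finset.mem_insert.1 ha with rfl | ha
    · exact ⟨hj1, hj2⟩
    · exact hs' a ha

theorem ev_fin {κ : Type} [Finite κ] (f : ℕ → κ) : ∃ k, ∀ᶠ i in (U : Filter ℕ), f i = k := by
  obtain ⟨k, hk⟩ := (U.map f).eq_pure_of_finite
  refine ⟨k, ?_⟩
  have h : {k} ∈ (U.map f : Ultrafilter κ) := by
    rw [hk]
    exact Set.mem_singleton k
  exact h

theorem logb_diff {a b : ℝ} (ha : 0 < a) (hab : a ≤ b) :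
    Real.logb 2 b - Real.logb 2 a ≤ (b - a) / a / Real.log 2 := by
  have hb : 0 < b := lt_of_lt_of_le ha hab
  have h2 : 0 < Real.log 2 := Real.log_pos (by norm_num)
  rw [Real.logb, Real.logb, ← sub_div, ← Real.log_div hb.ne' ha.ne']
  apply div_le_div_of_nonneg_right _ h2.le
  have h3 := Real.log_le_sub_one_of_pos (x := b / a) (by positivity)
  refine h3.trans (le_of_eq ?_)
  field_simp

section main

variable (x : ℕ → ℕ)

noncomputable def be (i : ℕ) : ℝ := Real.logb 2 (x i)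
noncomputable def la (i : ℕ) : ℝ := Real.logb 2 (be x i)
def me (i : ℕ) : ℕ := LL (x i)
def Mf (i : ℕ) (s : Finset ℕ) : ℕ := LL (x i ^ (∏ a ∈ s, x a))

variable {x}

theorem two_le (hx : StrictMono x) {i : ℕ} (hi : 2 ≤ i) : 2 ≤ x i := le_trans hi (hx.id_le i)

theorem be_ge_one (hx : StrictMono x) {i : ℕ} (hi : 2 ≤ i) : 1 ≤ be x i := by
  have h := two_le hx hi
  rw [be, Real.le_logb_iff_rpow_le (by norm_num) (by positivity), Real.rpow_one]
  exact_mod_cast h

theorem me_spec (hx : StrictMono x) {i : ℕ} (hi : 2 ≤ i) :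
    (me x i : ℝ) ≤ la x i ∧ la x i < me x i + 1 := LL_spec (two_le hx hi)

theorem be_spec (hx : StrictMono x) {i : ℕ} (hi : 2 ≤ i) :
    (2 : ℝ) ^ me x i ≤ be x i ∧ be x i < (2 : ℝ) ^ (me x i + 1) := by
  obtain ⟨h1, h2⟩ := me_spec hx hi
  have hb : 0 < be x i := lt_of_lt_of_le one_pos (be_ge_one hx hi)
  constructor
  · rw [la, Real.le_logb_iff_rpow_le (by norm_num) hb, Real.rpow_natCast] at h1
    exact h1
  · rw [la, Real.logb_lt_iff_lt_rpow (by norm_num) hb, ← Nat.cast_add_one, Real.rpow_natCast] at h2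
    exact h2

theorem Mf_spec (hx : StrictMono x) {i : ℕ} (hi : 2 ≤ i) {s : Finset ℕ} (hs : ∀ a ∈ s, i < a) :
    (Mf x i s : ℝ) ≤ ∑ a ∈ s, be x a + la x i ∧ ∑ a ∈ s, be x a + la x i < Mf x i s + 1 := by
  have hxi := two_le hx hi
  have hpos : ∀ a ∈ s, x a ≠ 0 := fun a ha => by
    have := two_le hx (i := a) (by have := hs a ha; omega)
    omega
  have hP : ∏ a ∈ s, x a ≠ 0 := Finset.prod_ne_zero_iff.2 hpos
  have h2 : 2 ≤ x i ^ (∏ a ∈ s, x a) := by
    calc 2 ≤ x i := hxi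
      _ = x i ^ 1 := (pow_one _).symm
      _ ≤ x i ^ (∏ a ∈ s, x a) := Nat.pow_le_pow_right (by omega) (Nat.one_le_iff_ne_zero.2 hP)
  have key : Real.logb 2 (Real.logb 2 ((x i ^ (∏ a ∈ s, x a) : ℕ) : ℝ)) =
      ∑ a ∈ s, be x a + la x i := by
    have hb : 0 < be x i := lt_of_lt_of_le one_pos (be_ge_one hx hi)
    rw [Nat.cast_pow, Real.logb_pow]
    change Real.logb 2 (((∏ a ∈ s, x a : ℕ) : ℝ) * be x i) = _
    rw [Real.logb_mul (by exact_mod_cast hP) hb.ne', Nat.cast_prod, Real.logb_prod]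
    · rfl
    · intro a ha
      exact_mod_cast hpos a ha
  have := LL_spec h2
  rw [key] at this
  exact this

theorem be_large (hx : StrictMono x) (K : ℝ) : ∀ᶠ i in (U : Filter ℕ), K < be x i := by
  apply ev_of
  have h1 : Tendsto (fun i : ℕ => Real.logb 2 (i : ℝ)) atTop atTop :=
    (Real.tendsto_logb_atTop (by norm_num)).comp tendsto_natCast_atTop_atTop
  filter_upwards [h1.eventually_gt_atTop K, eventually_ge_atTop 2] with i hi hi2
  refine lt_of_lt_of_le hi ?_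
  rw [be]
  apply Real.logb_le_logb_of_le (by norm_num) (by positivity)
  exact_mod_cast hx.id_le i

theorem la_large (hx : StrictMono x) (K : ℝ) : ∀ᶠ i in (U : Filter ℕ), K < la x i := by
  filter_upwards [be_large hx (2 ^ K), ev_gt 2] with i hi hi2
  have hb : 0 < be x i := lt_of_lt_of_le one_pos (be_ge_one hx (by omega))
  rw [la, Real.lt_logb_iff_rpow_lt (by norm_num) hb]
  exact hi

theorem me_large (hx : StrictMono x) (K : ℝ) : ∀ᶠ i in (U : Filter ℕ), K < me x i := by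
  filter_upwards [la_large hx (K + 1), ev_gt 2] with i hi hi2
  have := (me_spec hx (i := i) (by omega)).2
  linarith

/-- monochromaticity of the type I set -/
def Mono (x : ℕ → ℕ) (k : Bool) : Prop := (⋃ n, FE1 x n) ⊆ col ⁻¹' {k}

theorem mono_Mf {k : Bool} (h : Mono x k) (i : ℕ) (s : Finset ℕ) (hs : ∀ a ∈ s, i < a) :
    C (Mf x i s) = k := by
  have h1 := mem_FE1 x i s hs (max i (s.sup id)) (le_max_left _ _)
    (fun a ha => le_trans (Finset.le_sup (f := id) ha) (le_max_right _ _))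
  exact h (Set.mem_iUnion.2 ⟨_, h1⟩)

theorem mono_me {k : Bool} (h : Mono x k) (i : ℕ) : C (me x i) = k := by
  have h1 := mono_Mf h i ∅ (by simp)
  rw [Mf, Finset.prod_empty, pow_one] at h1
  exact h1

/-- the limit of the fractional parts -/
theorem exists_theta (x : ℕ → ℕ) : ∃ θ : ℝ, Tendsto (fun i => Int.fract (be x i / 3)) (U : Filter ℕ) (𝓝 θ) := by
  have hc : IsCompact (Set.Icc (0 : ℝ) 1) := isCompact_Icc
  obtain ⟨θ, _, hθ⟩ := hc.ultrafilter_le_nhds (U.map (fun i => Int.fract (be x i / 3))) (by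
    rw [le_principal_iff]
    change ∀ᶠ i in (U : Filter ℕ), Int.fract (be x i / 3) ∈ Set.Icc (0 : ℝ) 1
    exact Eventually.of_forall fun i => ⟨Int.fract_nonneg _, (Int.fract_lt_one _).le⟩)
  exact ⟨θ, hθ⟩

theorem sum_close {θ η : ℝ} {r : ℕ} (hr : 1 ≤ r) (t : Finset ℕ) (ht : t.card = r)
    (h : ∀ a ∈ t, |Int.fract (be x a / 3) - θ| < η / (3 * r)) :
    ∃ Z : ℤ, |∑ a ∈ t, be x a - 3 * Z - 3 * (r * θ)| < η := by
  refine ⟨∑ a ∈ t, ⌊be x a / 3⌋, ?_⟩
  have h1 : ∑ a ∈ t, be x a - 3 * ((∑ a ∈ t, ⌊be x a / 3⌋ : ℤ) : ℝ) - 3 * (r * θ) =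
      3 * ∑ a ∈ t, (Int.fract (be x a / 3) - θ) := by
    rw [Finset.sum_sub_distrib, Finset.sum_const, ht, Int.cast_sum]
    simp only [Int.fract, Finset.sum_sub_distrib, ← Finset.sum_div, nsmul_eq_mul]
    ring
  rw [h1, abs_mul, abs_of_pos (by norm_num : (0 : ℝ) < 3)]
  have hne : t.Nonempty := by
    rw [← Finset.card_pos]
    omega
  have h2 : |∑ a ∈ t, (Int.fract (be x a / 3) - θ)| < ∑ a ∈ t, η / (3 * r) :=
    lt_of_le_of_lt (Finset.abs_sum_le_sum_abs _ _) (Finset.sum_lt_sum_of_nonempty hne h)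
  rw [Finset.sum_const, ht, nsmul_eq_mul] at h2
  have hr0 : (0 : ℝ) < r := by exact_mod_cast hr
  have h3 : (r : ℝ) * (η / (3 * r)) = η / 3 := by field_simp
  rw [h3] at h2
  linarith

theorem sum_be_nonneg (hx : StrictMono x) {i : ℕ} (hi : 2 ≤ i) {s : Finset ℕ}
    (hs : ∀ a ∈ s, i < a) : 0 ≤ ∑ a ∈ s, be x a := by
  apply Finset.sum_nonneg
  intro a ha
  have := be_ge_one hx (i := a) (by have := hs a ha; omega)
  linarith

theorem la_nonneg (hx : StrictMono x) {i : ℕ} (hi : 2 ≤ i) : 0 ≤ la x i :=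
  Real.logb_nonneg (by norm_num) (be_ge_one hx hi)

/-- in case II -/
theorem starII (hx : StrictMono x) {k : Bool} (h : Mono x k) {S : ℝ}
    (hS : ∀ᶠ i in (U : Filter ℕ), (2 : ℝ) ^ (me x i + 1) - be x i ≤ S) {i0 : ℕ} (hi0 : 2 ≤ i0)
    (hla : S ≤ la x i0) (s : Finset ℕ) (hs : ∀ a ∈ s, i0 < a) :
    ∀ᶠ j in (U : Filter ℕ), Mf x i0 (insert j s) % 3 = (me x j + 1) % 3 := by
  filter_upwards [hS, ev_gt i0, ev_gt (s.sup id), me_large hx (∑ a ∈ s, be x a + la x i0),
    me_large hx 2] with j hj1 hj2 hj3 hj4 hj5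
  have hjs : j ∉ s := by
    intro h
    have := Finset.le_sup (f := id) h
    simp only [id] at this
    omega
  have hs' : ∀ a ∈ insert j s, i0 < a := by
    intro a ha
    rcases Finset.mem_insert.1 ha with rfl | ha
    · exact hj2
    · exact hs a ha
  obtain ⟨hM1, hM2⟩ := Mf_spec hx hi0 hs'
  rw [Finset.sum_insert hjs] at hM1 hM2
  have hsn := sum_be_nonneg hx hi0 hs
  obtain ⟨hb1, hb2⟩ := be_spec hx (i := j) (by omega)
  set M := Mf x i0 (insert j s) with hMdef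
  set m := me x j with hm
  have hlow : 2 ^ (m + 1) ≤ M := by
    have h1 : ((2 ^ (m + 1) : ℕ) : ℝ) < (M : ℝ) + 1 := by
      push_cast
      linarith
    have h2 : 2 ^ (m + 1) < M + 1 := by exact_mod_cast h1
    omega
  have hup : M ≤ 2 ^ (m + 1) + (m + 1) := by
    have h1 : (M : ℝ) < ((2 ^ (m + 1) + (m + 1) : ℕ) : ℝ) := by
      push_cast
      linarith
    have h2 : M < 2 ^ (m + 1) + (m + 1) := by exact_mod_cast h1
    omega
  have hlt : m + 1 < 2 ^ (m + 1) := Nat.lt_two_pow_self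
  have hlog : Nat.log 2 M = m + 1 := by
    apply Nat.log_eq_of_pow_le_of_lt_pow hlow
    rw [pow_succ]
    omega
  have hm2 : 2 < m := by exact_mod_cast hj5
  apply P2 (by omega) hlog _ hup
  rw [hMdef, mono_Mf h i0 _ hs', hm, mono_me h]

/-- in case I -/
theorem starI (hx : StrictMono x) {k : Bool} (h : Mono x k)
    (hS : ∀ S : ℝ, ∀ᶠ i in (U : Filter ℕ), S < (2 : ℝ) ^ (me x i + 1) - be x i) {i0 : ℕ}
    (hi0 : 2 ≤ i0) (s : Finset ℕ) (hs : ∀ a ∈ s, i0 < a) :
    ∀ᶠ j in (U : Filter ℕ), Mf x i0 (insert j s) ≤ 2 ^ me x j + me x j ∧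
      Mf x i0 (insert j s) % 3 ≠ me x j % 3 := by
  filter_upwards [hS (∑ a ∈ s, be x a + la x i0), ev_gt i0, ev_gt (s.sup id),
    me_large hx 2] with j hj1 hj2 hj3 hj5
  have hjs : j ∉ s := by
    intro h
    have := Finset.le_sup (f := id) h
    simp only [id] at this
    omega
  have hs' : ∀ a ∈ insert j s, i0 < a := by
    intro a ha
    rcases Finset.mem_insert.1 ha with rfl | ha
    · exact hj2
    · exact hs a ha
  obtain ⟨hM1, hM2⟩ := Mf_spec hx hi0 hs'
  rw [Finset.sum_insert hjs] at hM1 hM2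
  have hsn := sum_be_nonneg hx hi0 hs
  have hln := la_nonneg hx hi0
  obtain ⟨hb1, hb2⟩ := be_spec hx (i := j) (by omega)
  set M := Mf x i0 (insert j s) with hMdef
  set m := me x j with hm
  have hlow : 2 ^ m ≤ M := by
    have h1 : ((2 ^ m : ℕ) : ℝ) < (M : ℝ) + 1 := by
      push_cast
      linarith
    have h2 : 2 ^ m < M + 1 := by exact_mod_cast h1
    omega
  have hup : M < 2 ^ (m + 1) := by
    have h1 : (M : ℝ) < ((2 ^ (m + 1) : ℕ) : ℝ) := by
      push_cast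
      linarith
    exact_mod_cast h1
  have hlog : Nat.log 2 M = m := Nat.log_eq_of_pow_le_of_lt_pow hlow hup
  have hm2 : 2 < m := by exact_mod_cast hj5
  have hlt : m < 2 ^ m := Nat.lt_two_pow_self
  apply P1 (by omega) hlog
  rw [hMdef, mono_Mf h i0 _ hs', hm, mono_me h]

theorem tinyII (hx : StrictMono x) {S : ℝ}
    (hS : ∀ᶠ i in (U : Filter ℕ), (2 : ℝ) ^ (me x i + 1) - be x i ≤ S) {ε : ℝ} (hε : 0 < ε) :
    ∀ᶠ i in (U : Filter ℕ), me x i + 1 - la x i < ε := by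
  have h2 : 0 < Real.log 2 := Real.log_pos (by norm_num)
  filter_upwards [hS, be_large hx ((|S| + 1) / (ε * Real.log 2)), ev_gt 2] with i hi1 hi2 hi3
  obtain ⟨hb1, hb2⟩ := be_spec hx (i := i) (by omega)
  have hb : 0 < be x i := lt_of_lt_of_le one_pos (be_ge_one hx (by omega))
  have h3 := logb_diff hb hb2.le
  have h4 : Real.logb 2 ((2 : ℝ) ^ (me x i + 1)) = me x i + 1 := by
    rw [Real.logb_pow, Real.logb_self_eq_one (by norm_num)]
    push_cast
    ring
  rw [h4] at h3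
  refine lt_of_le_of_lt h3 ?_
  rw [div_lt_iff₀ h2, div_lt_iff₀ hb]
  rw [div_lt_iff₀ (by positivity)] at hi2
  have := le_abs_self S
  nlinarith

theorem tinyI (hx : StrictMono x) {k : Bool} (h : Mono x k)
    (hS : ∀ S : ℝ, ∀ᶠ i in (U : Filter ℕ), S < (2 : ℝ) ^ (me x i + 1) - be x i) {ε : ℝ}
    (hε : 0 < ε) : ∀ᶠ i in (U : Filter ℕ), la x i - me x i < ε := by
  have h2 : 0 < Real.log 2 := Real.log_pos (by norm_num)
  have hlim : Tendsto (fun n : ℕ => ((n : ℝ) + 1) / 2 ^ n) atTop (𝓝 0) := by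
    have h1 := tendsto_pow_const_div_const_pow_of_one_lt 1 (r := (2 : ℝ)) (by norm_num)
    have h3 := tendsto_pow_const_div_const_pow_of_one_lt 0 (r := (2 : ℝ)) (by norm_num)
    have h4 := h1.add h3
    simp only [add_zero] at h4
    refine h4.congr (fun n => ?_)
    rw [pow_one, pow_zero]
    ring
  have hme : Tendsto (fun i => me x i) (U : Filter ℕ) atTop := by
    rw [tendsto_atTop]
    intro b
    filter_upwards [me_large hx b] with i hi
    have : b < me x i := by exact_mod_cast hi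
    omega
  have hev := (hlim.comp hme).eventually_lt_const (show (0 : ℝ) < ε * Real.log 2 by positivity)
  filter_upwards [hev, starI hx h hS (le_refl 2) ∅ (by simp), ev_gt 2] with i hi1 hi2 hi3
  obtain ⟨hb1, hb2⟩ := be_spec hx (i := i) (by omega)
  have hs' : ∀ a ∈ (insert i ∅ : Finset ℕ), 2 < a := by
    intro a ha
    simp only [insert_empty_eq, Finset.mem_singleton] at ha
    omega
  obtain ⟨hM1, hM2⟩ := Mf_spec hx (le_refl 2) hs'
  rw [insert_empty_eq, Finset.sum_singleton] at hM2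
  rw [insert_empty_eq] at hi2
  have hln := la_nonneg hx (le_refl 2)
  have h5 : (Mf x 2 {i} : ℝ) ≤ 2 ^ me x i + me x i := by exact_mod_cast hi2.1
  have hpow : (0 : ℝ) < 2 ^ me x i := by positivity
  have h3 := logb_diff hpow hb1
  have h4 : Real.logb 2 ((2 : ℝ) ^ (me x i)) = me x i := by
    rw [Real.logb_pow, Real.logb_self_eq_one (by norm_num), mul_one]
  rw [h4] at h3
  refine lt_of_le_of_lt h3 ?_
  rw [div_lt_iff₀ h2]
  refine lt_of_le_of_lt ?_ hi1
  simp only [Function.comp]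
  apply div_le_div_of_nonneg_right _ hpow.le
  linarith

theorem no_mono (hx : StrictMono x) (k : Bool) : ¬ Mono x k := by
  intro h
  obtain ⟨θ, hθ⟩ := exists_theta x
  obtain ⟨ρ, hρ⟩ := ev_fin (fun i => (⟨me x i % 3, Nat.mod_lt _ (by norm_num)⟩ : Fin 3))
  have hρ' : ∀ᶠ i in (U : Filter ℕ), me x i % 3 = ρ.1 := by
    filter_upwards [hρ] with i hi
    rw [← hi]
  have hclose : ∀ δ : ℝ, 0 < δ → ∀ᶠ i in (U : Filter ℕ), |Int.fract (be x i / 3) - θ| < δ := by
    intro δ hδ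
    have := Metric.tendsto_nhds.1 hθ δ hδ
    simpa [Real.dist_eq] using this
  by_cases hS : ∃ S : ℝ, ∀ᶠ i in (U : Filter ℕ), (2 : ℝ) ^ (me x i + 1) - be x i ≤ S
  · -- case II
    obtain ⟨S, hS⟩ := hS
    obtain ⟨r, hr, p, hp1, hp2⟩ := L2 θ
    set G : ℝ := 3 * (r * θ - p) - 1 with hG
    have hG0 : 0 < G := by rw [hG]; linarith
    obtain ⟨i0, ⟨⟨⟨hi1, hi2⟩, hi3⟩, hi4⟩⟩ := (((tinyII hx hS (half_pos hG0)).and
      (ev_gt 2)).and (la_large hx S) |>.and hρ').exists
    set tiny : ℝ := me x i0 + 1 - la x i0 with htiny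
    have ht0 : 0 < tiny := by
      have := (me_spec hx (i := i0) (by omega)).2
      rw [htiny]
      linarith
    set η : ℝ := min tiny (G / 2) with hη
    have hη0 : 0 < η := lt_min ht0 (half_pos hG0)
    have hr0 : (0 : ℝ) < r := by exact_mod_cast hr
    obtain ⟨t, j, hjt, hcard, hQ, hR⟩ := select
      (fun a => |Int.fract (be x a / 3) - θ| < η / (3 * r) ∧ me x a % 3 = ρ.1)
      ((hclose _ (by positivity)).and hρ') i0 r hr
      (fun t j => Mf x i0 t % 3 = (me x j + 1) % 3)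
      (fun s hs => starII hx h hS (by omega) hi3.le s hs)
    obtain ⟨Z, hZ⟩ := sum_close hr t hcard (fun a ha => (hQ a ha).1.1)
    obtain ⟨hM1, hM2⟩ := Mf_spec hx (i := i0) (by omega) (fun a ha => (hQ a ha).2)
    rw [abs_lt] at hZ
    have hη1 : η ≤ tiny := min_le_left _ _
    have hη2 : η ≤ G / 2 := min_le_right _ _
    have e1 : ((me x i0 : ℤ) + 1 + 3 * (Z + p) + 1 : ℤ) < (Mf x i0 t : ℤ) + 1 := by
      have : ((me x i0 : ℝ) + 1 + 3 * (Z + p) + 1) < (Mf x i0 t : ℝ) + 1 := by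
        rw [htiny] at hi1 hη1
        linarith [hZ.1]
      exact_mod_cast this
    have e2 : (Mf x i0 t : ℤ) < (me x i0 : ℤ) + 1 + 3 * (Z + p) + 3 := by
      have : (Mf x i0 t : ℝ) < (me x i0 : ℝ) + 1 + 3 * (Z + p) + 3 := by
        rw [htiny] at hη1
        linarith [hZ.2]
      exact_mod_cast this
    have hj := (hQ j hjt).1.2
    omega
  · -- case I
    push Not at hS
    have hS' : ∀ S : ℝ, ∀ᶠ i in (U : Filter ℕ), S < (2 : ℝ) ^ (me x i + 1) - be x i := by
      intro S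
      exact hS S
    by_cases hz : ∀ᶠ i in (U : Filter ℕ), 0 < la x i - me x i
    · obtain ⟨r, hr, p, hp1, hp2⟩ := L1 θ
      set G : ℝ := 1 - 3 * (r * θ - p) with hG
      have hG0 : 0 < G := by rw [hG]; linarith
      obtain ⟨i0, ⟨⟨⟨hi1, hi2⟩, hi3⟩, hi4⟩⟩ := (((tinyI hx h hS' (half_pos hG0)).and
        (ev_gt 2)).and hz |>.and hρ').exists
      set tiny : ℝ := la x i0 - me x i0 with htiny
      set η : ℝ := min tiny (G / 2) with hη
      have hη0 : 0 < η := lt_min hi3 (half_pos hG0)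
      have hr0 : (0 : ℝ) < r := by exact_mod_cast hr
      obtain ⟨t, j, hjt, hcard, hQ, hR⟩ := select
        (fun a => |Int.fract (be x a / 3) - θ| < η / (3 * r) ∧ me x a % 3 = ρ.1)
        ((hclose _ (by positivity)).and hρ') i0 r hr
        (fun t j => Mf x i0 t ≤ 2 ^ me x j + me x j ∧ Mf x i0 t % 3 ≠ me x j % 3)
        (fun s hs => starI hx h hS' (by omega) s hs)
      obtain ⟨Z, hZ⟩ := sum_close hr t hcard (fun a ha => (hQ a ha).1.1)
      obtain ⟨hM1, hM2⟩ := Mf_spec hx (i := i0) (by omega) (fun a ha => (hQ a ha).2)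
      rw [abs_lt] at hZ
      have hη1 : η ≤ tiny := min_le_left _ _
      have hη2 : η ≤ G / 2 := min_le_right _ _
      have e1 : ((me x i0 : ℤ) + 3 * (Z + p) : ℤ) < (Mf x i0 t : ℤ) + 1 := by
        have : ((me x i0 : ℝ) + 3 * (Z + p)) < (Mf x i0 t : ℝ) + 1 := by
          rw [htiny] at hη1
          linarith [hZ.1]
        exact_mod_cast this
      have e2 : (Mf x i0 t : ℤ) < (me x i0 : ℤ) + 3 * (Z + p) + 1 := by
        have : (Mf x i0 t : ℝ) < (me x i0 : ℝ) + 3 * (Z + p) + 1 := by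
          rw [htiny] at hi1
          linarith [hZ.2]
        exact_mod_cast this
      have hj := (hQ j hjt).1.2
      have hR2 := hR.2
      omega
    · rw [← Ultrafilter.frequently_iff_eventually, not_frequently] at hz
      have hz' : ∀ᶠ i in (U : Filter ℕ), be x i = 2 ^ me x i ∧ la x i = me x i := by
        filter_upwards [hz, ev_gt 2] with i hi hi2
        obtain ⟨h1, h2⟩ := me_spec hx (i := i) (by omega)
        have hb : 0 < be x i := lt_of_lt_of_le one_pos (be_ge_one hx (by omega))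
        have h3 : la x i = me x i := by
          push Not at hi
          linarith
        refine ⟨?_, h3⟩
        have h4 : (2 : ℝ) ^ (la x i) = be x i := Real.rpow_logb (by norm_num) (by norm_num) hb
        rw [h3, Real.rpow_natCast] at h4
        exact h4.symm
      obtain ⟨τ, hτ⟩ := ev_fin (fun i => ((2 ^ me x i : ℕ) : ZMod 3))
      obtain ⟨i0, ⟨⟨hi1, hi2⟩, hi3⟩⟩ := ((hz'.and (ev_gt 2)).and hρ').exists
      obtain ⟨t, j, hjt, hcard, hQ, hR⟩ := select
        (fun a => be x a = 2 ^ me x a ∧ ((2 ^ me x a : ℕ) : ZMod 3) = τ ∧ me x a % 3 = ρ.1)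
        (by filter_upwards [hz', hτ, hρ'] with i h1 h2 h3 using ⟨h1.1, h2, h3⟩) i0 3 (by norm_num)
        (fun t j => Mf x i0 t ≤ 2 ^ me x j + me x j ∧ Mf x i0 t % 3 ≠ me x j % 3)
        (fun s hs => starI hx h hS' (by omega) s hs)
      obtain ⟨hM1, hM2⟩ := Mf_spec hx (i := i0) (by omega) (fun a ha => (hQ a ha).2)
      have hsum : ∑ a ∈ t, be x a = ((∑ a ∈ t, 2 ^ me x a : ℕ) : ℝ) := by
        push_cast
        exact Finset.sum_congr rfl (fun a ha => (hQ a ha).1.1)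
      rw [hsum, hi1.2] at hM1 hM2
      have hM : Mf x i0 t = ∑ a ∈ t, 2 ^ me x a + me x i0 := by
        have a1 : Mf x i0 t ≤ ∑ a ∈ t, 2 ^ me x a + me x i0 := by exact_mod_cast hM1
        have a2 : ∑ a ∈ t, 2 ^ me x a + me x i0 < Mf x i0 t + 1 := by exact_mod_cast hM2
        omega
      have h3 : (∑ a ∈ t, 2 ^ me x a) % 3 = 0 := by
        have : ((∑ a ∈ t, 2 ^ me x a : ℕ) : ZMod 3) = 0 := by
          rw [Nat.cast_sum, Finset.sum_congr rfl (fun a ha => (hQ a ha).1.2.1), Finset.sum_const,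
            hcard]
          have h3τ : ∀ τ : ZMod 3, 3 • τ = 0 := by decide
          exact h3τ τ
        exact Nat.mod_eq_zero_of_dvd ((ZMod.natCast_eq_zero_iff _ _).1 this)
      have hj := (hQ j hjt).1.2.2
      have hR2 := hR.2
      omega

end main

end Pool.Agent.W281.ExpIP.TwoCol
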